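import Pool.Agent.H379Z.Fty.Defs

/-!
# Existence of two-sided stationary two-state Markov chains
-/

namespace Pool.Agent.H379Z.Fty

open MeasureTheory Filter Topology

def Sm {α : Type} [AddCommMonoid α] : ℕ → (List (Fin 2) → α) → α
  | 0, F => F []
  | n + 1, F => Sm n (fun l => F (0 :: l)) + Sm n (fun l => F (1 :: l))

section
variable {α : Type} [AddCommMonoid α]

theorem Sm_add (n : ℕ) (F G : List (Fin 2) → α) :
    Sm n (fun l => F l + G l) = Sm n F + Sm n G := by
  induction n generalizing F G with
  | zero => rfl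
  | succ n ih => simp only [Sm, ih]; abel

theorem Sm_congr (n : ℕ) {F G : List (Fin 2) → α} (h : ∀ l, l.length = n → F l = G l) :
    Sm n F = Sm n G := by
  induction n generalizing F G with
  | zero => exact h [] rfl
  | succ n ih =>
    simp only [Sm]
    rw [ih (fun l hl => h (0 :: l) (by simp [hl])), ih (fun l hl => h (1 :: l) (by simp [hl]))]

theorem Sm_zero (n : ℕ) : Sm n (fun _ => (0 : α)) = 0 := by
  induction n with
  | zero => rfl
  | succ n ih => simp only [Sm, ih, add_zero]

theorem Sm_append (a b : ℕ) (F : List (Fin 2) → α) :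
    Sm (a + b) F = Sm a (fun x => Sm b (fun y => F (x ++ y))) := by
  induction a generalizing F with
  | zero => simp [Sm]
  | succ a ih => rw [Nat.succ_add]; simp only [Sm, ih, List.cons_append]

theorem Sm_ind (w : List (Fin 2)) (G : List (Fin 2) → α) :
    Sm w.length (fun x => if x = w then G x else 0) = G w := by
  induction w generalizing G with
  | nil => simp [Sm]
  | cons a w ih =>
    have := ih (fun l => G (a :: l))
    fin_cases a <;> simp [Sm, Sm_zero] <;> simpa using this

end

theorem Sm_apply {X : Type} [MeasurableSpace X] (n : ℕ) (F : List (Fin 2) → Measure X)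
    (S : Set X) : Sm n F S = Sm n (fun l => F l S) := by
  induction n generalizing F with
  | zero => rfl
  | succ n ih => simp only [Sm, Measure.add_apply, ih]

section
variable (π : Fin 2 → ENNReal) (P : Fin 2 → Fin 2 → ENNReal)

noncomputable def fw : Fin 2 → List (Fin 2) → ENNReal
  | _, [] => 1
  | a, b :: l => P a b * fw b l

noncomputable def wt : List (Fin 2) → ENNReal
  | [] => 1
  | a :: l => π a * fw P a l

variable {π P} (h1 : π 0 + π 1 = 1) (hP : ∀ a, P a 0 + P a 1 = 1)
  (hs : ∀ b, π 0 * P 0 b + π 1 * P 1 b = π b)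

include h1 hs in
theorem wt_left (l : List (Fin 2)) : wt π P (0 :: l) + wt π P (1 :: l) = wt π P l := by
  cases l with
  | nil => simp [wt, fw, h1]
  | cons b l => simp only [wt, fw, ← mul_assoc, ← add_mul, hs]

include hP in
theorem fw_right (a : Fin 2) (l : List (Fin 2)) :
    fw P a (l ++ [0]) + fw P a (l ++ [1]) = fw P a l := by
  induction l generalizing a with
  | nil => simp [fw, hP]
  | cons b l ih => simp only [List.cons_append, fw, ← mul_add, ih]

include h1 hP in
theorem wt_right (l : List (Fin 2)) : wt π P (l ++ [0]) + wt π P (l ++ [1]) = wt π P l := by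
  cases l with
  | nil => simp [wt, fw, h1]
  | cons b l => simp only [List.cons_append, wt, ← mul_add, fw_right hP]

include h1 hs in
theorem Sm_left (a : ℕ) (w : List (Fin 2)) : Sm a (fun x => wt π P (x ++ w)) = wt π P w := by
  induction a with
  | zero => rfl
  | succ a ih => simp only [Sm, List.cons_append, ← Sm_add, wt_left h1 hs, ih]

include h1 hP in
theorem Sm_right (b : ℕ) (w : List (Fin 2)) : Sm b (fun y => wt π P (w ++ y)) = wt π P w := by
  induction b generalizing w with
  | zero => simp [Sm]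
  | succ b ih =>
    have e := fun c : Fin 2 => ih (w ++ [c])
    simp only [List.append_assoc, List.singleton_append] at e
    simp only [Sm, e, wt_right h1 hP]

theorem fw_range (n : ℕ) (w : ℕ → Fin 2) :
    fw P (w 0) ((List.range n).map (fun k => w (k + 1))) =
      ∏ k ∈ Finset.range n, P (w k) (w (k + 1)) := by
  induction n generalizing w with
  | zero => simp [fw]
  | succ n ih =>
    rw [List.range_succ_eq_map, Finset.prod_range_succ', ← ih (fun k => w (k + 1))]
    simp [fw, Function.comp_def, mul_comm]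

variable (π P) in
noncomputable def approx (N : ℕ) : Measure (ℤ → Fin 2) :=
  Sm (2 * N + 1) (fun u => wt π P u • Measure.dirac (fun j : ℤ => u.getD (j + N).toNat 0))

theorem clopen_cyl (i : ℤ) (n : ℕ) (w : ℕ → Fin 2) :
    IsClopen {x : ℤ → Fin 2 | ∀ k : ℕ, k ≤ n → x (i + k) = w k} := by
  have : {x : ℤ → Fin 2 | ∀ k : ℕ, k ≤ n → x (i + k) = w k} =
      ⋂ k ∈ Finset.range (n + 1), (fun x : ℤ → Fin 2 => x (i + k)) ⁻¹' {w k} := by
    ext x; simp [Nat.lt_succ_iff]
  rw [this]
  exact isClopen_biInter_finset fun k _ => (isClopen_discrete _).preimage (continuous_apply _)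

include h1 hP hs in
theorem approx_cyl (i : ℤ) (n : ℕ) (w : ℕ → Fin 2) (N : ℕ) (hN : i.natAbs + n ≤ N) :
    approx π P N {x | ∀ k : ℕ, k ≤ n → x (i + k) = w k} =
      π (w 0) * ∏ k ∈ Finset.range n, P (w k) (w (k + 1)) := by
  classical
  set W := (List.range (n + 1)).map w with hW
  have lW : W.length = n + 1 := by simp [hW]
  obtain ⟨a, ha⟩ : ∃ a : ℕ, (a : ℤ) = i + N := ⟨(i + N).toNat, by omega⟩
  obtain ⟨b, hb⟩ : ∃ b : ℕ, 2 * N + 1 = a + (W.length + b) := ⟨2 * N + 1 - a - (n + 1), by omega⟩
  have e : wt π P W = π (w 0) * ∏ k ∈ Finset.range n, P (w k) (w (k + 1)) := by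
    rw [hW, List.range_succ_eq_map, ← fw_range]
    simp [wt, Function.comp_def]
  rw [approx, Sm_apply, hb, Sm_append, ← e, ← Sm_left h1 hs a]
  refine Sm_congr _ fun x hx => ?_
  rw [Sm_append, ← Sm_right h1 hP b, ← Sm_ind W (fun y => Sm b fun z => wt π P (x ++ y ++ z))]
  refine Sm_congr _ fun y hy => ?_
  have key : ∀ z : List (Fin 2), ((fun j : ℤ => (x ++ (y ++ z)).getD (j + N).toNat 0) ∈
      {x : ℤ → Fin 2 | ∀ k : ℕ, k ≤ n → x (i + k) = w k}) ↔ y = W := by
    intro z
    have g : ∀ k : ℕ, k ≤ n → (x ++ (y ++ z)).getD (i + k + N).toNat 0 = y.getD k 0 := by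
      intro k hk
      rw [show (i + k + N).toNat = x.length + k by omega, List.getD_append_right _ _ _ _ (by omega),
        Nat.add_sub_cancel_left, List.getD_append _ _ _ _ (by omega)]
    constructor
    · intro h
      refine List.ext_getElem hy fun k h1 h2 => ?_
      have := h k (by omega)
      simp only at this
      rw [g k (by omega), List.getD_eq_getElem _ _ h1] at this
      simp [this, hW]
    · rintro rfl k hk
      simp only
      rw [g k hk, List.getD_eq_getElem _ _ (by omega)]
      simp [hW]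
  simp only [Measure.smul_apply, smul_eq_mul,
    Measure.dirac_apply' _ (clopen_cyl i n w).isOpen.measurableSet, Set.indicator_apply, key]
  split_ifs with h
  · simp
  · simp [Sm_zero]

include h1 hP hs in
theorem exists_chain : ∃ μ : Measure (ℤ → Fin 2), IsProbabilityMeasure μ ∧
    ∀ (i : ℤ) (n : ℕ) (w : ℕ → Fin 2), μ {x | ∀ k : ℕ, k ≤ n → x (i + k) = w k} =
      π (w 0) * ∏ k ∈ Finset.range n, P (w k) (w (k + 1)) := by
  have pr : ∀ N, IsProbabilityMeasure (approx π P N) := fun N => ⟨by
    rw [approx, Sm_apply]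
    simpa [wt] using Sm_right h1 hP (2 * N + 1) []⟩
  let f : ℕ → ProbabilityMeasure (ℤ → Fin 2) := fun N => ⟨approx π P N, pr N⟩
  obtain ⟨μ, -, hμ⟩ := isCompact_univ.ultrafilter_le_nhds ((hyperfilter ℕ).map f) (by simp)
  have hμ' : Tendsto f (hyperfilter ℕ) (𝓝 μ) := hμ
  refine ⟨μ, μ.2, fun i n w => ?_⟩
  have t1 := ProbabilityMeasure.tendsto_measure_of_isClopen_of_tendsto hμ' (clopen_cyl i n w)
  have t2 := ENNReal.tendsto_coe.2 t1
  simp only [ProbabilityMeasure.ennreal_coeFn_eq_coeFn_toMeasure] at t2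
  refine tendsto_nhds_unique t2 (tendsto_const_nhds.congr' ?_)
  apply (Nat.hyperfilter_le_atTop)
  filter_upwards [eventually_ge_atTop (i.natAbs + n)] with N hN
  exact (approx_cyl h1 hP hs i n w N hN).symm

end

end Pool.Agent.H379Z.Fty
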