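import Mathlib

/-!
# Markov chains, entropy and finitary factors of i.i.d. processes
-/

namespace Pool.Agent.H379Z.Fty

open MeasureTheory Filter Topology

/-- The left shift on two-sided sequences. -/
def shift {α : Type} (x : ℤ → α) : ℤ → α := fun i => x (i + 1)

/-- `μ` is the law of the stationary Markov chain with one-dimensional marginal `π` and transition
matrix `P`: every cylinder, at every position, has the Markov probability. -/
def IsMarkovLaw {d : ℕ} (π : Fin d → ℝ) (P : Matrix (Fin d) (Fin d) ℝ)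
    (μ : Measure (ℤ → Fin d)) : Prop :=
  IsProbabilityMeasure μ ∧ (∀ a b, 0 ≤ P a b) ∧ (∀ a, ∑ b, P a b = 1) ∧
    ∀ (i : ℤ) (n : ℕ) (w : ℕ → Fin d), μ.real {x | ∀ k : ℕ, k ≤ n → x (i + k) = w k} =
      π (w 0) * ∏ k ∈ Finset.range n, P (w k) (w (k + 1))

/-- Irreducible and aperiodic: some positive power of the matrix has only positive entries. -/
def IrredAperiodic {d : ℕ} (P : Matrix (Fin d) (Fin d) ℝ) : Prop :=
  ∃ n : ℕ, 0 < n ∧ ∀ a b, 0 < (P ^ n) a b

/-- Exponential return times: for some state `s` of positive probability, the probability, given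
`M₀ = s`, that `s` is not visited at the times `1, …, n` is at most `C e^{-c n}`. -/
def ExpReturn {d : ℕ} (μ : Measure (ℤ → Fin d)) : Prop :=
  ∃ (s : Fin d) (C c : ℝ), 0 < C ∧ 0 < c ∧ 0 < μ.real {x | x 0 = s} ∧ ∀ n : ℕ,
    μ.real {x | x 0 = s ∧ ∀ k : ℕ, 1 ≤ k → k ≤ n → x k ≠ s} / μ.real {x | x 0 = s} ≤
      C * Real.exp (-c * n)

/-- The Shannon entropy of the block `(M₀, …, M_{n-1})`. -/
noncomputable def blockEntropy {d : ℕ} (μ : Measure (ℤ → Fin d)) (n : ℕ) : ℝ :=
  ∑ w : Fin n → Fin d, Real.negMulLog (μ.real {x | ∀ k : Fin n, x ((k : ℕ) : ℤ) = w k})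

/-- The finite-alphabet process with law `μ` has entropy (rate) `h`. -/
def HasEntropy {d : ℕ} (μ : Measure (ℤ → Fin d)) (h : ℝ) : Prop :=
  Tendsto (fun n : ℕ => blockEntropy μ n / n) atTop (𝓝 h)

open Classical in
/-- The Shannon entropy of a random variable with law `ν`: the sum of `- p log p` over the atoms if
the atoms carry all the mass, and `∞` otherwise. -/
noncomputable def shannon {E : Type} [MeasurableSpace E] (ν : Measure E) : ENNReal :=
  if ν {x | ν {x} = 0} = 0 then ∑' x, ENNReal.ofReal (Real.negMulLog (ν.real {x})) else ⊤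

/-- The law of the i.i.d. process with marginal `ν`. -/
noncomputable def iid {E : Type} [MeasurableSpace E] (ν : Measure E) : Measure (ℤ → E) :=
  Measure.infinitePi (fun _ : ℤ => ν)

/-- `φ(y)₀` is determined by `(y_{-r}, …, y_r)`: it is unchanged for almost every resampling of the
other coordinates. -/
def Determined {E : Type} [MeasurableSpace E] {d : ℕ} (ν : Measure E)
    (φ : (ℤ → E) → (ℤ → Fin d)) (y : ℤ → E) (r : ℕ) : Prop :=
  ∀ᵐ z ∂(iid ν), φ (fun i => if |i| ≤ (r : ℤ) then y i else z i) 0 = φ y 0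

/-- The process with law `μ` is a finitary factor, with exponential tails of the coding window, of
the i.i.d. process with marginal `ν`. -/
def ExpFinitaryFactor {E : Type} [MeasurableSpace E] {d : ℕ} (ν : Measure E)
    (μ : Measure (ℤ → Fin d)) : Prop :=
  ∃ φ : (ℤ → E) → (ℤ → Fin d), Measurable φ ∧ (∀ᵐ y ∂(iid ν), φ (shift y) = shift (φ y)) ∧
    (iid ν).map φ = μ ∧ (∀ᵐ y ∂(iid ν), ∃ r, Determined ν φ y r) ∧
    ∃ C c : ℝ, 0 < C ∧ 0 < c ∧ ∀ r : ℕ,
      iid ν {y | ∀ r' ≤ r, ¬ Determined ν φ y r'} ≤ ENNReal.ofReal (C * Real.exp (-c * r))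

end Pool.Agent.H379Z.Fty
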