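import Pool.Agent.H379Z.Fty.Chain

/-!
# The maximal-entropy Markov chain on the golden mean shift
-/

namespace Pool.Agent.H379Z.Fty

open MeasureTheory Filter Topology
open Real (negMulLog)

structure Gold (f : ℝ) : Prop where
  one : 1 < f
  sq : f ^ 2 = f + 1

theorem Gold.pos {f : ℝ} (h : Gold f) : 0 < f := by linarith [h.one]

variable {f : ℝ} (hf : Gold f)

noncomputable def gP (f : ℝ) : Matrix (Fin 2) (Fin 2) ℝ := !![f⁻¹, f⁻¹ ^ 2; 1, 0]

noncomputable def gπ (f : ℝ) : Fin 2 → ℝ :=
  ![f ^ 2 / (f ^ 2 + 1), 1 / (f ^ 2 + 1)]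

noncomputable def gr (f : ℝ) : Fin 2 → ℝ := ![f, 1]

include hf in
theorem gP_nonneg (a b : Fin 2) : 0 ≤ gP f a b := by
  have := hf.pos
  fin_cases a <;> fin_cases b <;> simp [gP] <;> positivity

include hf in
theorem gπ_pos (a : Fin 2) : 0 < gπ f a := by
  have := hf.pos
  fin_cases a <;> simp [gπ] <;> positivity

include hf in
theorem gP_row (a : Fin 2) : gP f a 0 + gP f a 1 = 1 := by
  have := hf.pos
  have h := hf.sq
  fin_cases a
  · simp [gP]
    field_simp; linarith
  · simp [gP]

include hf in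
theorem exists_law : ∃ μ, IsMarkovLaw (gπ f) (gP f) μ := by
  have p := hf.pos
  have h := hf.sq
  obtain ⟨μ, h1, h2⟩ := exists_chain (π := fun a => ENNReal.ofReal (gπ f a))
    (P := fun a b => ENNReal.ofReal (gP f a b))
    (by
      rw [← ENNReal.ofReal_add (gπ_pos hf _).le (gπ_pos hf _).le, ← ENNReal.ofReal_one]
      congr 1
      simp only [gπ, Matrix.cons_val]
      field_simp)
    (fun a => by
      rw [← ENNReal.ofReal_add (gP_nonneg hf _ _) (gP_nonneg hf _ _), gP_row hf, ENNReal.ofReal_one])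
    (fun b => by
      rw [← ENNReal.ofReal_mul (gπ_pos hf _).le, ← ENNReal.ofReal_mul (gπ_pos hf _).le,
        ← ENNReal.ofReal_add (mul_nonneg (gπ_pos hf _).le (gP_nonneg hf _ _))
          (mul_nonneg (gπ_pos hf _).le (gP_nonneg hf _ _))]
      congr 1
      fin_cases b
      · simp [gπ, gP]
        field_simp; linarith
      · simp [gπ, gP]
        field_simp)
  refine ⟨μ, h1, gP_nonneg hf, fun a => by rw [Fin.sum_univ_two, gP_row hf], fun i n w => ?_⟩
  rw [Measure.real, h2, ENNReal.toReal_mul, ENNReal.toReal_prod,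
    ENNReal.toReal_ofReal (gπ_pos hf _).le]
  simp only [ENNReal.toReal_ofReal (gP_nonneg hf _ _)]

include hf in
theorem gr_pos (a : Fin 2) : 0 < gr f a := by
  fin_cases a <;> simp [gr, hf.pos]

include hf in
theorem prod_gP (n : ℕ) (w : ℕ → Fin 2) : ∏ k ∈ Finset.range n, gP f (w k) (w (k + 1)) = 0 ∨
    ∏ k ∈ Finset.range n, gP f (w k) (w (k + 1)) = gr f (w n) / gr f (w 0) * f⁻¹ ^ n := by
  have p := hf.pos
  have one : ∀ a b, gP f a b = 0 ∨ gP f a b = gr f b / gr f a * f⁻¹ := by
    intro a b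
    fin_cases a <;> fin_cases b <;> simp [gP, gr, sq, p.ne']
  induction n with
  | zero => right; simp [(gr_pos hf _).ne']
  | succ n ih =>
    rw [Finset.prod_range_succ]
    rcases ih with h | h
    · left; rw [h, zero_mul]
    rcases one (w n) (w (n + 1)) with h' | h'
    · left; rw [h', mul_zero]
    · right
      rw [h, h', pow_succ]
      have := (gr_pos hf (w n)).ne'
      have := (gr_pos hf (w 0)).ne'
      field_simp

include hf in
theorem word_bounds (n : ℕ) (w : ℕ → Fin 2) :
    gπ f (w 0) * ∏ k ∈ Finset.range n, gP f (w k) (w (k + 1)) = 0 ∨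
    ((f ^ 2 + 1)⁻¹ * f⁻¹ ^ n ≤
      gπ f (w 0) * ∏ k ∈ Finset.range n, gP f (w k) (w (k + 1)) ∧
    gπ f (w 0) * ∏ k ∈ Finset.range n, gP f (w k) (w (k + 1)) ≤ f⁻¹ ^ n) := by
  have p := hf.pos
  have p1 := hf.one
  rcases prod_gP hf n w with h | h
  · left; rw [h, mul_zero]
  right
  rw [h, ← mul_assoc]
  have key : ∀ a b, (f ^ 2 + 1)⁻¹ ≤ gπ f a * (gr f b / gr f a) ∧ gπ f a * (gr f b / gr f a) ≤ 1 := by
    intro a b
    fin_cases a <;> fin_cases b <;> simp only [gπ, gr, Fin.reduceFinMk, Matrix.cons_val] <;>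
      constructor <;> field_simp <;> nlinarith
  exact ⟨mul_le_mul_of_nonneg_right (key _ _).1 (by positivity),
    mul_le_of_le_one_left (by positivity) (key _ _).2⟩

include hf in
theorem irred : IrredAperiodic (gP f) := by
  have p := hf.pos
  refine ⟨2, two_pos, fun a b => ?_⟩
  fin_cases a <;> fin_cases b <;>
    simp [gP, sq, Matrix.mul_apply, Fin.sum_univ_two] <;> positivity

include hf in
theorem expReturn {μ : Measure (ℤ → Fin 2)} (h : IsMarkovLaw (gπ f) (gP f) μ) : ExpReturn μ := by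
  obtain ⟨h0, -, -, h⟩ := h
  have e0 : μ.real {x | x 0 = 0} = gπ f 0 := by simpa using h 0 0 (fun _ => 0)
  have p0 : 0 < μ.real {x | x 0 = 0} := e0 ▸ gπ_pos hf 0
  refine ⟨0, Real.exp 2, 1, Real.exp_pos _, one_pos, p0, fun n => ?_⟩
  by_cases hn : n ≤ 2
  · have : μ.real {x | x 0 = 0 ∧ ∀ k : ℕ, 1 ≤ k → k ≤ n → x k ≠ 0} / μ.real {x | x 0 = 0} ≤ 1 :=
      div_le_one_of_le₀ (measureReal_mono fun x hx => hx.1) p0.le
    refine this.trans ?_
    rw [← Real.exp_add]
    have : (n : ℝ) ≤ 2 := by exact_mod_cast hn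
    exact Real.one_le_exp (by linarith)
  · have e1 := h 1 1 (fun _ => 1)
    have : μ.real {x | x 0 = 0 ∧ ∀ k : ℕ, 1 ≤ k → k ≤ n → x k ≠ 0} ≤
        μ.real {x | ∀ k : ℕ, k ≤ 1 → x (1 + k) = 1} := by
      refine measureReal_mono fun x hx k hk => ?_
      have := hx.2 (1 + k) (by omega) (by omega)
      push_cast at this
      omega
    rw [e1] at this
    simp only [Finset.range_one, Finset.prod_singleton, gP, Matrix.of_apply, Matrix.cons_val,
      mul_zero] at this
    exact (div_nonpos_of_nonpos_of_nonneg this p0.le).trans (by positivity)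

include hf in
theorem hasEntropy {μ : Measure (ℤ → Fin 2)} (h : IsMarkovLaw (gπ f) (gP f) μ) :
    HasEntropy μ (Real.log f) := by
  obtain ⟨h0, -, -, h⟩ := h
  have p := hf.pos
  have lp := Real.log_pos hf.one
  set K := Real.log (f ^ 2 + 1) with hK
  have bd : ∀ n : ℕ, n * Real.log f ≤ blockEntropy μ (n + 1) ∧
      blockEntropy μ (n + 1) ≤ n * Real.log f + K := by
    intro n
    let F : (ℤ → Fin 2) → (Fin (n + 1) → Fin 2) := fun x k => x ((k : ℕ) : ℤ)
    have mF : Measurable F := measurable_pi_lambda _ fun k => measurable_pi_apply _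
    have eS : ∀ w : Fin (n + 1) → Fin 2,
        {x : ℤ → Fin 2 | ∀ k : Fin (n + 1), x ((k : ℕ) : ℤ) = w k} = F ⁻¹' {w} := by
      intro w; ext x; simp [F, funext_iff]
    have tot : ∑ w : Fin (n + 1) → Fin 2, μ.real (F ⁻¹' {w}) = 1 := by
      rw [sum_measureReal_preimage_singleton _ fun w _ => mF (measurableSet_singleton w)]
      simp
    have each : ∀ w : Fin (n + 1) → Fin 2,
        n * Real.log f * μ.real (F ⁻¹' {w}) ≤ negMulLog (μ.real (F ⁻¹' {w})) ∧
        negMulLog (μ.real (F ⁻¹' {w})) ≤ (n * Real.log f + K) * μ.real (F ⁻¹' {w}) := by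
      intro w
      have e := h 0 n (fun k => if hk : k < n + 1 then w ⟨k, hk⟩ else 0)
      have e2 : {x : ℤ → Fin 2 | ∀ k : ℕ, k ≤ n →
          x (0 + k) = if hk : k < n + 1 then w ⟨k, hk⟩ else 0} = F ⁻¹' {w} := by
        ext x
        simp only [Set.mem_setOf_eq, Set.mem_preimage, Set.mem_singleton_iff, F, funext_iff,
          zero_add]
        exact ⟨fun h k => by simpa [k.2] using h k (by omega),
          fun h k hk => by rw [dif_pos (by omega)]; exact h ⟨k, by omega⟩⟩
      rw [e2] at e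
      have b := word_bounds hf n (fun k => if hk : k < n + 1 then w ⟨k, hk⟩ else 0)
      rw [← e] at b
      generalize μ.real (F ⁻¹' {w}) = q at b
      rcases b with rfl | ⟨b1, b2⟩
      · simp
      have c0 : 0 < (f ^ 2 + 1)⁻¹ * f⁻¹ ^ n := by positivity
      have q0 : 0 < q := c0.trans_le b1
      have l1 := Real.log_le_log c0 b1
      have l2 := Real.log_le_log q0 b2
      rw [Real.log_mul (by positivity) (by positivity), Real.log_pow, Real.log_inv,
        Real.log_inv] at l1
      rw [Real.log_pow, Real.log_inv] at l2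
      unfold negMulLog
      constructor <;> nlinarith
    simp only [blockEntropy, eS]
    constructor
    · have := Finset.sum_le_sum fun w (_ : w ∈ Finset.univ) => (each w).1
      rwa [← Finset.mul_sum, tot, mul_one] at this
    · have := Finset.sum_le_sum fun w (_ : w ∈ Finset.univ) => (each w).2
      rwa [← Finset.mul_sum, tot, mul_one] at this
  rw [HasEntropy, ← tendsto_add_atTop_iff_nat 1]
  have t0 : Tendsto (fun n : ℕ => 1 / ((n : ℝ) + 1)) atTop (𝓝 0) :=
    tendsto_one_div_add_atTop_nhds_zero_nat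
  have t1 := (t0.const_mul (-Real.log f)).const_add (Real.log f)
  have t2 := (t0.const_mul (K - Real.log f)).const_add (Real.log f)
  simp only [mul_zero, add_zero] at t1 t2
  refine tendsto_of_tendsto_of_tendsto_of_le_of_le t1 t2 (fun n => ?_) (fun n => ?_)
  · push_cast
    rw [le_div_iff₀ (by positivity)]
    refine le_trans (le_of_eq ?_) (bd n).1
    field_simp; ring
  · push_cast
    rw [div_le_iff₀ (by positivity)]
    refine le_trans (bd n).2 (le_of_eq ?_)
    field_simp; ring

end Pool.Agent.H379Z.Fty
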