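import Pool.Agent.H379Z.Fty.Tail

/-!
# No entropy-preserving coding with exponential tails onto a process with flat cylinder measures
-/

namespace Pool.Agent.H379Z.Fty

open MeasureTheory Filter Topology

variable {E : Type} [MeasurableSpace E]

instance (ν : Measure E) [IsProbabilityMeasure ν] : IsProbabilityMeasure (iid ν) := by
  unfold iid; infer_instance

theorem mp_shift (ν : Measure E) [IsProbabilityMeasure ν] :
    MeasurePreserving shift (iid ν) (iid ν) := by
  have hm : Measurable (shift : (ℤ → E) → (ℤ → E)) :=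
    measurable_pi_lambda _ fun i => measurable_pi_apply _
  refine ⟨hm, Measure.eq_infinitePi _ fun s t ht => ?_⟩
  rw [Measure.map_apply hm (.pi s.countable_toSet fun _ _ => ht _)]
  have : shift ⁻¹' ((s : Set ℤ).pi t) =
      ((s.map (Equiv.addRight (1 : ℤ)).toEmbedding : Finset ℤ) : Set ℤ).pi (fun i => t (i - 1)) := by
    ext x
    simp [shift, Set.mem_pi]
    exact ⟨fun h i hi => by simpa [sub_eq_add_neg] using h _ hi,
      fun h i hi => by simpa using h (i + 1) (by simpa using hi)⟩
  rw [this, iid, Measure.infinitePi_pi _ (fun i _ => ht _), Finset.prod_map]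
  simp

theorem shift_iter {α : Type} (k : ℕ) (x : ℤ → α) (i : ℤ) : shift^[k] x i = x (i + k) := by
  induction k generalizing i with
  | zero => simp
  | succ k ih =>
    rw [Function.iterate_succ_apply', shift, ih]; congr 1; push_cast; ring

theorem window [MeasurableSingletonClass E] (ν : Measure E) [IsProbabilityMeasure ν] {d : ℕ}
    (φ : (ℤ → E) → (ℤ → Fin d)) (mφ : Measurable φ)
    (hφ : ∀ᵐ y ∂(iid ν), φ (shift y) = shift (φ y)) {lam : ℝ} (h1 : 1 < lam)
    (hw : ∀ (n : ℕ) (w : ℕ → Fin d),
      ((iid ν).map φ).real {x | ∀ k : ℕ, k ≤ n → x (0 + k) = w k} ≤ lam⁻¹ ^ n)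
    (hA : ∀ᵐ x ∂ν, ν {x} ≠ 0) (hI : Measurable fun x => -Real.log (ν.real {x})) (m n : ℕ) :
    Measure.pi (fun _ : Finset.Icc (-(m : ℤ)) (n + m) => ν)
      {y | ∑ i, -Real.log (ν.real {y i}) < n * Real.log lam} ≤
      (n + 1 : ℕ) * iid ν {y | ∀ r' ≤ m, ¬ Determined ν φ y r'} := by
  set W := Finset.Icc (-(m : ℤ)) (n + m) with hW
  set B := {y | ∀ r' ≤ m, ¬ Determined ν φ y r'} with hB
  have mA : MeasurableSet {y : W → E | ∑ i, -Real.log (ν.real {y i}) < n * Real.log lam} :=
    measurableSet_lt (Finset.measurable_sum _ fun i _ => hI.comp (measurable_pi_apply i))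
      measurable_const
  rw [← Measure.infinitePi_map_restrict (fun _ : ℤ => ν),
    Measure.map_apply (Finset.measurable_restrict _) mA]
  have it : ∀ k, MeasurePreserving shift^[k] (iid ν) (iid ν) := fun k => (mp_shift ν).iterate k
  have eqv : ∀ᵐ y ∂(iid ν), ∀ k : ℕ, φ (shift^[k] y) = shift^[k] (φ y) := by
    have : ∀ᵐ y ∂(iid ν), ∀ k : ℕ, φ (shift (shift^[k] y)) = shift (φ (shift^[k] y)) :=
      ae_all_iff.2 fun k => (it k).quasiMeasurePreserving.ae hφ
    filter_upwards [this] with y hy k
    induction k with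
    | zero => rfl
    | succ k ih => rw [Function.iterate_succ_apply', hy, ih, Function.iterate_succ_apply']
  have at' : ∀ᵐ y ∂(iid ν), ∀ i : ℤ, ν {y i} ≠ 0 := ae_all_iff.2 fun i =>
    (measurePreserving_eval_infinitePi (fun _ : ℤ => ν) i).quasiMeasurePreserving.ae hA
  have sub : ∀ᵐ y ∂(iid ν), y ∈ W.restrict ⁻¹'
      {y : W → E | ∑ i, -Real.log (ν.real {y i}) < n * Real.log lam} →
      y ∈ ⋃ k ∈ Finset.range (n + 1), shift^[k] ⁻¹' B := by
    filter_upwards [eqv, at'] with y hy1 hy2 hy
    by_contra hn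
    simp only [Set.mem_iUnion, Finset.mem_range, Set.mem_preimage, hB, Set.mem_setOf_eq,
      not_exists, not_forall, not_not] at hn
    have h2 : ∀ᵐ z ∂(iid ν), ∀ k : ℕ, k ≤ n → (∀ i ∈ W, z i = y i) →
        φ (shift^[k] z) 0 = φ (shift^[k] y) 0 := by
      refine ae_all_iff.2 fun k => ?_
      by_cases hk : k ≤ n
      · obtain ⟨r, hr, hd⟩ := hn k (by omega)
        filter_upwards [(it k).quasiMeasurePreserving.ae hd] with z hz _ hzy
        rw [← hz]
        congr 1
        funext i
        split_ifs with h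
        · rw [shift_iter, shift_iter]
          apply hzy
          rw [hW, Finset.mem_Icc]
          rw [abs_le] at h
          omega
        · rfl
      · exact Eventually.of_forall fun z h => absurd h hk
    have mw : MeasurableSet {x : ℤ → Fin d | ∀ k : ℕ, k ≤ n → x (0 + k) = φ y k} := by
      simp only [Set.setOf_forall]
      exact MeasurableSet.iInter fun k => MeasurableSet.iInter fun _ =>
        measurable_pi_apply _ (measurableSet_singleton _)
    have h3 : iid ν ((W : Set ℤ).pi fun i => {y i}) ≤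
        (iid ν).map φ {x | ∀ k : ℕ, k ≤ n → x (0 + k) = φ y k} := by
      rw [Measure.map_apply mφ mw]
      apply measure_mono_ae
      filter_upwards [h2, eqv] with z hz1 hz2 hz k hk
      have := hz1 k hk (fun i hi => hz i hi)
      rw [hz2, hy1, shift_iter, shift_iter] at this
      simpa using this
    rw [iid, Measure.infinitePi_pi _ (fun i _ => measurableSet_singleton _)] at h3
    have h4 : ∏ i ∈ W, ν.real {y i} ≤ lam⁻¹ ^ n := by
      refine le_trans ?_ (hw n fun k => φ y k)
      have := ENNReal.toReal_mono (measure_ne_top _ _) h3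
      rwa [ENNReal.toReal_prod] at this
    have hp : ∀ i ∈ W, ν.real {y i} ≠ 0 := fun i _ =>
      ENNReal.toReal_ne_zero.2 ⟨hy2 i, measure_ne_top _ _⟩
    have h5 := Real.log_le_log (Finset.prod_pos fun i hi =>
      lt_of_le_of_ne measureReal_nonneg (hp i hi).symm) h4
    rw [Real.log_prod hp, Real.log_pow, Real.log_inv] at h5
    simp only [Set.mem_preimage, Set.mem_setOf_eq, Finset.restrict] at hy
    rw [Finset.sum_coe_sort W (fun i => -Real.log (ν.real {y i})), Finset.sum_neg_distrib] at hy
    linarith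
  refine (measure_mono_ae sub).trans ((measure_biUnion_finset_le _ _).trans ?_)
  have : ∀ k ∈ Finset.range (n + 1), iid ν (shift^[k] ⁻¹' B) ≤ iid ν B := by
    intro k _
    have := Measure.le_map_apply (μ := iid ν) (it k).measurable.aemeasurable B
    rwa [(it k).map_eq] at this
  refine (Finset.sum_le_sum this).trans ?_
  simp

theorem no_code [StandardBorelSpace E] (ν : Measure E) [IsProbabilityMeasure ν] {d : ℕ}
    (μ : Measure (ℤ → Fin d)) {lam : ℝ} (h1 : 1 < lam) (h2 : lam < 2)
    (hw : ∀ (n : ℕ) (w : ℕ → Fin d),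
      μ.real {x | ∀ k : ℕ, k ≤ n → x (0 + k) = w k} ≤ lam⁻¹ ^ n)
    (hs : shannon ν = ENNReal.ofReal (Real.log lam)) : ¬ ExpFinitaryFactor ν μ := by
  classical
  rintro ⟨φ, mφ, hφ, rfl, -, C, c, hC, hc, ht⟩
  have hh : 0 < Real.log lam := Real.log_pos h1
  unfold shannon at hs
  split_ifs at hs with h0
  swap
  · exact absurd hs.symm ENNReal.ofReal_ne_top
  have hA : ∀ᵐ x ∂ν, ν {x} ≠ 0 := by simpa [ae_iff] using h0
  have cA : {x | ν {x} ≠ 0}.Countable := by
    have := Measure.countable_meas_level_set_pos (μ := ν) (g := id) measurable_id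
    simpa [pos_iff_ne_zero] using this
  set q : E → ℝ := fun x => ν.real {x} with hq
  set I : E → ℝ := fun x => -Real.log (q x) with hI
  have mq : Measurable q := by
    refine (measurable_const (a := (0 : ℝ))).measurable_of_countable_ne (cA.mono ?_)
    intro x hx h
    exact hx (by simp [hq, Measure.real, h])
  have mI : Measurable I := mq.log.neg
  have I0 : ∀ x, 0 ≤ I x := fun x =>
    neg_nonneg.2 (Real.log_nonpos measureReal_nonneg measureReal_le_one)
  have lI : ∫⁻ x, ENNReal.ofReal (I x) ∂ν = ENNReal.ofReal (Real.log lam) := by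
    rw [← hs, ← Measure.restrict_eq_self_of_ae_mem (s := {x | ν {x} ≠ 0}) hA,
      lintegral_countable _ cA, Measure.restrict_eq_self_of_ae_mem (s := {x | ν {x} ≠ 0}) hA,
      ← tsum_subtype_eq_of_support_subset (s := {x | ν {x} ≠ 0})]
    · refine tsum_congr fun x => ?_
      rw [Real.negMulLog, show -ν.real {x.1} * Real.log (ν.real {x.1}) = I x * ν.real {x.1} by
        simp [hI, hq]; ring, ENNReal.ofReal_mul (I0 _), ofReal_measureReal]
    · intro x hx h
      exact hx (by simp [Measure.real, h])
  have iI : Integrable I ν :=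
    ⟨mI.aestronglyMeasurable, by
      rw [hasFiniteIntegral_iff_ofReal (Eventually.of_forall I0), lI]; exact ENNReal.ofReal_lt_top⟩
  have eI : ∫ x, I x ∂ν = Real.log lam := by
    rw [integral_eq_lintegral_of_nonneg_ae (Eventually.of_forall I0) mI.aestronglyMeasurable, lI,
      ENNReal.toReal_ofReal hh.le]
  obtain ⟨a, b, hb, hab⟩ : ∃ a b, 0 < q b ∧ q b < q a := by
    by_contra hn
    push Not at hn
    obtain ⟨a, ha⟩ := hA.exists
    have pos : ∀ x, ν {x} ≠ 0 → 0 < q x := fun x hx => ENNReal.toReal_pos hx (measure_ne_top _ _)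
    have e1 : ∀ᵐ x ∂ν, I x = I a := by
      filter_upwards [hA] with x hx
      simp only [hI, le_antisymm (hn x a (pos a ha)) (hn a x (pos x hx))]
    rw [integral_congr_ae e1] at eI
    simp only [integral_const, probReal_univ, smul_eq_mul, one_mul, hI] at eI
    have qa : q a = lam⁻¹ := by
      rw [← Real.log_inv] at eI
      have := Real.log_injOn_pos (Set.mem_Ioi.2 (inv_pos.2 (pos a ha)))
        (Set.mem_Ioi.2 (by linarith)) eI
      rw [← this, inv_inv]
    have e2 : ∀ᵐ x ∂ν, x ∈ ({a} : Set E) := by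
      filter_upwards [hA] with x hx
      by_contra hxa
      have e3 : ν.real ({x} ∪ {a}) = q x + q a :=
        measureReal_union (by simpa using hxa) (measurableSet_singleton a)
      have e4 : ν.real ({x} ∪ {a}) ≤ 1 := measureReal_le_one
      rw [e3, le_antisymm (hn x a (pos a ha)) (hn a x (pos x hx)), qa] at e4
      have : 2⁻¹ < lam⁻¹ := by gcongr
      linarith
    have e5 : q a = 1 := by
      simp only [hq, Measure.real]
      rw [(mem_ae_iff_prob_eq_one (measurableSet_singleton a)).1 e2]; rfl
    rw [e5] at qa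
    have : lam⁻¹ < 1 := inv_lt_one_of_one_lt₀ h1
    linarith
  have ha : 0 < q a := hb.trans hab
  have hne : a ≠ b := by rintro rfl; exact lt_irrefl _ hab
  have ind : ∀ (x : E) (v : ℝ), Integrable (Set.indicator {x} (fun _ => v)) ν := fun x v =>
    (integrable_const v).indicator (measurableSet_singleton x)
  have two : ∀ (f : E → ℝ) (u v : ℝ), Integrable f ν →
      Integrable (fun x => f x + Set.indicator {a} (fun _ => u) x +
        Set.indicator {b} (fun _ => v) x) ν ∧
      ∫ x, (f x + Set.indicator {a} (fun _ => u) x + Set.indicator {b} (fun _ => v) x) ∂ν =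
        ∫ x, f x ∂ν + q a * u + q b * v := by
    intro f u v hf
    have i1 : Integrable (fun x => f x + Set.indicator {a} (fun _ => u) x) ν := hf.add (ind a u)
    refine ⟨i1.add (ind b v), ?_⟩
    rw [integral_add i1 (ind b v), integral_add hf (ind a u),
      integral_indicator_const _ (measurableSet_singleton a),
      integral_indicator_const _ (measurableSet_singleton b)]
    rfl
  refine numeric (h := Real.log lam) (γ := Real.log (q a) - Real.log (q b))
    (κ := (q a)⁻¹ + (q b)⁻¹) (b := q b) (C := C) (c := c) hh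
    (sub_pos.2 (Real.log_lt_log hb hab)) (by positivity) hb hc fun η η0 η1 m n t n0 t0 => ?_
  let g : E → ℝ := fun x => 1 + Set.indicator {a} (fun _ => η / q a) x +
    Set.indicator {b} (fun _ => -(η / q b)) x
  have g1 := two (fun _ => 1) (η / q a) (-(η / q b)) (integrable_const _)
  have g2 := two (fun _ => 1) (2 * (η / q a) + (η / q a) ^ 2) (-2 * (η / q b) + (η / q b) ^ 2)
    (integrable_const _)
  have g3 := two I (η / q a * I a) (-(η / q b) * I b) iI
  have f2 : (fun x => g x ^ 2) = fun x => 1 +
      Set.indicator {a} (fun _ => 2 * (η / q a) + (η / q a) ^ 2) x +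
      Set.indicator {b} (fun _ => -2 * (η / q b) + (η / q b) ^ 2) x := by
    funext x
    by_cases xa : x = a
    · subst xa; simp [g, hne]; ring
    by_cases xb : x = b
    · subst xb; simp [g, xa]; ring
    · simp [g, xa, xb]
  have f3 : (fun x => g x * I x) = fun x => I x + Set.indicator {a} (fun _ => η / q a * I a) x +
      Set.indicator {b} (fun _ => -(η / q b) * I b) x := by
    funext x
    by_cases xa : x = a
    · subst xa; simp [g, hne]; ring
    by_cases xb : x = b
    · subst xb; simp [g, xa]; ring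
    · simp [g, xa, xb]
  have g0 : ∀ x, 0 ≤ g x := by
    intro x
    by_cases xa : x = a
    · subst xa; simp [g, hne]; positivity
    by_cases xb : x = b
    · subst xb; simp [g, xa]; rw [div_le_one hb]; exact η1
    · simp [g, xa, xb]
  have key := tilt (ι := Finset.Icc (-(m : ℤ)) (n + m)) ν g0 I0 mI g1.1 (f2 ▸ g2.1) (f3 ▸ g3.1)
    (by rw [g1.2]; simp; field_simp; ring) (T := n * Real.log lam) (by positivity) t0
  have hcard : Fintype.card (Finset.Icc (-(m : ℤ)) (n + m)) = n + 2 * m + 1 := by
    rw [Fintype.card_coe, Int.card_Icc]; omega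
  have k2 : ∫ x, g x ^ 2 ∂ν = 1 + ((q a)⁻¹ + (q b)⁻¹) * η ^ 2 := by
    rw [f2, g2.2]; simp; field_simp; ring
  have k3 : ∫ x, g x * I x ∂ν = Real.log lam - η * (Real.log (q a) - Real.log (q b)) := by
    rw [f3, g3.2, eI]; simp only [hI]; field_simp; ring
  rw [hcard, k2, k3] at key
  have w1 := (window ν φ mφ hφ h1 hw hA mI m n).trans (mul_le_mul_right (ht m) _)
  have w2 := ENNReal.toReal_mono (ENNReal.mul_ne_top (by simp) ENNReal.ofReal_ne_top) w1
  rw [ENNReal.toReal_mul, ENNReal.toReal_ofReal (by positivity), ENNReal.toReal_natCast] at w2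
  push_cast at w2
  have w3 := mul_le_mul_of_nonneg_left w2 t0.le
  exact key.trans (add_le_add (add_le_add le_rfl w3) le_rfl)

end Pool.Agent.H379Z.Fty
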