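import Pool.Agent.H379Z.Fty.Defs

/-!
# A lower bound for the lower tail of sums of information functions
-/

namespace Pool.Agent.H379Z.Fty

open MeasureTheory Filter Topology

theorem tilt {E ι : Type} [MeasurableSpace E] [Fintype ι] (ν : Measure E) [IsProbabilityMeasure ν]
    {g I : E → ℝ} (hg0 : ∀ x, 0 ≤ g x) (hI0 : ∀ x, 0 ≤ I x) (hI : Measurable I)
    (ig : Integrable g ν) (ig2 : Integrable (fun x => g x ^ 2) ν)
    (igI : Integrable (fun x => g x * I x) ν) (h1 : ∫ x, g x ∂ν = 1) {T t : ℝ} (hT : 0 < T)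
    (ht : 0 < t) :
    1 ≤ Fintype.card ι * (∫ x, g x * I x ∂ν) / T +
      t * (Measure.pi (fun _ : ι => ν)).real {y | ∑ i, I (y i) < T} +
      (∫ x, g x ^ 2 ∂ν) ^ Fintype.card ι / (4 * t) := by
  classical
  set Q := Measure.pi (fun _ : ι => ν) with hQ
  have mA : MeasurableSet {y : ι → E | ∑ i, I (y i) < T} :=
    measurableSet_lt (Finset.measurable_sum _ fun i _ => hI.comp (measurable_pi_apply i))
      measurable_const
  have e1 : ∫ y, ∏ i, g (y i) ∂Q = 1 := by
    rw [integral_fintype_prod_eq_prod (fun _ => g)]; simp [h1]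
  have i1 : Integrable (fun y : ι → E => ∏ i, g (y i)) Q :=
    Integrable.fintype_prod (f := fun _ => g) fun _ => ig
  have e2 : ∫ y, ∏ i, g (y i) ^ 2 ∂Q = (∫ x, g x ^ 2 ∂ν) ^ Fintype.card ι := by
    rw [integral_fintype_prod_eq_prod (fun _ x => g x ^ 2)]; simp
  have i2 : Integrable (fun y : ι → E => ∏ i, g (y i) ^ 2) Q :=
    Integrable.fintype_prod (f := fun _ x => g x ^ 2) fun _ => ig2
  let f : ι → ι → E → ℝ := fun j i x => if i = j then g x * I x else g x
  have fi : ∀ j i, Integrable (f j i) ν := by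
    intro j i
    by_cases h : i = j
    · simpa [f, h] using igI
    · simpa [f, h] using ig
  have hf : ∀ j (y : ι → E), ∏ i, f j i (y i) = (∏ i, g (y i)) * I (y j) := by
    intro j y
    have : ∀ i, f j i (y i) = g (y i) * (if i = j then I (y j) else 1) := by
      intro i
      by_cases h : i = j
      · simp [f, h]
      · simp [f, h]
    simp only [this, Finset.prod_mul_distrib, Finset.prod_ite_eq', Finset.mem_univ, if_true]
  have e3 : ∀ j, ∫ y, ∏ i, f j i (y i) ∂Q = ∫ x, g x * I x ∂ν := by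
    intro j
    rw [integral_fintype_prod_eq_prod (f j)]
    have : ∀ i, ∫ x, f j i x ∂ν = if i = j then ∫ x, g x * I x ∂ν else 1 := by
      intro i
      by_cases h : i = j
      · simp [f, h]
      · simp [f, h, h1]
    simp only [this, Finset.prod_ite_eq', Finset.mem_univ, if_true]
  have i3 : ∀ j, Integrable (fun y : ι → E => ∏ i, f j i (y i)) Q := fun j =>
    Integrable.fintype_prod (f := f j) (fi j)
  have i4 : Integrable (fun y : ι → E => ∑ j, ∏ i, f j i (y i)) Q :=
    integrable_finsetSum _ fun j _ => i3 j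
  have i5 : Integrable (Set.indicator {y : ι → E | ∑ i, I (y i) < T} (fun _ => t)) Q :=
    (integrable_const t).indicator mA
  have key : ∫ y, ∏ i, g (y i) ∂Q ≤ ∫ y, ((∑ j, ∏ i, f j i (y i)) / T +
      Set.indicator {y : ι → E | ∑ i, I (y i) < T} (fun _ => t) y +
      (∏ i, g (y i) ^ 2) / (4 * t)) ∂Q := by
    refine integral_mono i1 (((i4.div_const T).add i5).add (i2.div_const _)) fun y => ?_
    simp only [hf, ← Finset.mul_sum, Finset.prod_pow]
    have G0 : 0 ≤ ∏ i, g (y i) := Finset.prod_nonneg fun i _ => hg0 _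
    have S0 : 0 ≤ ∑ i, I (y i) := Finset.sum_nonneg fun i _ => hI0 _
    generalize ∏ i, g (y i) = G at *
    by_cases h : ∑ i, I (y i) < T
    · rw [Set.indicator_of_mem (by exact h)]
      have a1 : 0 ≤ G * (∑ i, I (y i)) / T := by positivity
      have a2 : G ≤ t + G ^ 2 / (4 * t) := by
        have : t + G ^ 2 / (4 * t) - G = (2 * t - G) ^ 2 / (4 * t) := by field_simp; ring
        have : 0 ≤ (2 * t - G) ^ 2 / (4 * t) := by positivity
        linarith
      linarith
    · rw [Set.indicator_of_notMem (by exact h)]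
      have a1 : G ≤ G * (∑ i, I (y i)) / T := by
        rw [le_div_iff₀ hT]; exact mul_le_mul_of_nonneg_left (not_lt.1 h) G0
      have a2 : 0 ≤ G ^ 2 / (4 * t) := by positivity
      linarith
  have i6 : Integrable (fun y : ι → E => (∑ j, ∏ i, f j i (y i)) / T +
      Set.indicator {y : ι → E | ∑ i, I (y i) < T} (fun _ => t) y) Q := (i4.div_const T).add i5
  rw [e1, integral_add i6 (i2.div_const _),
    integral_add (i4.div_const T) i5, integral_div, integral_div, e2,
    integral_finsetSum _ fun j _ => i3 j, integral_indicator_const _ mA] at key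
  simp only [e3, Finset.sum_const, Finset.card_univ, nsmul_eq_mul, smul_eq_mul] at key
  linarith

theorem numeric {h γ κ b C c : ℝ} (hh : 0 < h) (hγ : 0 < γ) (hκ : 0 < κ) (hb : 0 < b)
    (hc : 0 < c)
    (H : ∀ η : ℝ, 0 < η → η ≤ b → ∀ (m n : ℕ) (t : ℝ), 0 < n → 0 < t →
      1 ≤ ((n + 2 * m + 1 : ℕ) : ℝ) * (h - η * γ) / (n * h) +
        t * ((n + 1) * (C * Real.exp (-c * m))) + (1 + κ * η ^ 2) ^ (n + 2 * m + 1) / (4 * t)) :
    False := by
  obtain ⟨η, η0, η1, η2, η3⟩ : ∃ η : ℝ, 0 < η ∧ η ≤ b ∧ η ≤ 1 ∧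
      κ * η * (6 * h / γ + 4) ≤ c / 2 := by
    refine ⟨min (min b 1) (c / 2 / (κ * (6 * h / γ + 4))), by positivity,
      (min_le_left _ _).trans (min_le_left _ _), (min_le_left _ _).trans (min_le_right _ _), ?_⟩
    have := min_le_right (min b 1) (c / 2 / (κ * (6 * h / γ + 4)))
    rw [le_div_iff₀ (by positivity)] at this
    linarith
  obtain ⟨D, D1, D2⟩ : ∃ D : ℕ, 6 * h / (η * γ) ≤ D ∧ (D : ℝ) ≤ 6 * h / (η * γ) + 1 :=
    ⟨⌈6 * h / (η * γ)⌉₊, Nat.le_ceil _, (Nat.ceil_lt_add_one (by positivity)).le⟩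
  have D0 : (0 : ℝ) < D := lt_of_lt_of_le (by positivity) D1
  have D3 : κ * η ^ 2 * (D + 3) ≤ c / 2 := by
    have : κ * η ^ 2 * (D + 3) ≤ κ * η ^ 2 * (6 * h / (η * γ) + 4) :=
      mul_le_mul_of_nonneg_left (by linarith) (by positivity)
    have e : κ * η ^ 2 * (6 * h / (η * γ) + 4) = κ * η * (6 * h / γ + 4 * η) := by field_simp
    have : κ * η * (6 * h / γ + 4 * η) ≤ κ * η * (6 * h / γ + 4) := by gcongr; linarith
    linarith
  set ρ := η * γ / (2 * h) with hρ
  have ρ0 : 0 < ρ := by positivity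
  have key : ∀ m : ℕ, 1 ≤ m → ρ ^ 2 ≤ (D * m + 1) * (|C| * Real.exp (-(c / 2) * m)) := by
    intro m hm
    have m1 : (1 : ℝ) ≤ m := by exact_mod_cast hm
    have hB : (1 + κ * η ^ 2) ^ (D * m + 2 * m + 1) ≤ Real.exp (c / 2 * m) := by
      calc (1 + κ * η ^ 2) ^ (D * m + 2 * m + 1)
          ≤ Real.exp (κ * η ^ 2) ^ (D * m + 2 * m + 1) := by
            gcongr; linarith [Real.add_one_le_exp (κ * η ^ 2)]
        _ = Real.exp ((D * m + 2 * m + 1 : ℕ) * (κ * η ^ 2)) := by rw [Real.exp_nat_mul]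
        _ ≤ Real.exp (c / 2 * m) := by
            apply Real.exp_le_exp.2
            push_cast
            have : (D * m + 2 * m + 1 : ℝ) ≤ (D + 3) * m := by linarith
            have h2 : 0 ≤ κ * η ^ 2 := by positivity
            nlinarith
    have hD : 0 < D := by exact_mod_cast D0
    have h1 := H η η0 η1 m (D * m) (Real.exp (c / 2 * m) / (2 * ρ)) (by positivity)
      (by positivity)
    have h2 : ((D * m + 2 * m + 1 : ℕ) : ℝ) * (h - η * γ) / (((D * m : ℕ) : ℝ) * h) ≤ 1 - ρ := by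
      push_cast
      rw [div_le_iff₀ (by positivity)]
      have e : (1 - ρ) * (D * m * h) = D * m * (h - η * γ / 2) := by rw [hρ]; field_simp
      rw [e]
      rw [div_le_iff₀ (by positivity)] at D1
      have p1 : 0 < η * γ := by positivity
      nlinarith [mul_le_mul_of_nonneg_right D1 (by positivity : (0 : ℝ) ≤ m),
        mul_pos p1 (by positivity : (0 : ℝ) < m), mul_le_mul_of_nonneg_right m1 hh.le]
    have h3 : (1 + κ * η ^ 2) ^ (D * m + 2 * m + 1) / (4 * (Real.exp (c / 2 * m) / (2 * ρ))) ≤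
        ρ / 2 := by
      rw [div_le_iff₀ (by positivity)]
      have : ρ / 2 * (4 * (Real.exp (c / 2 * m) / (2 * ρ))) = Real.exp (c / 2 * m) := by
        field_simp; norm_num
      rw [this]; exact hB
    have h4 : ρ / 2 ≤ Real.exp (c / 2 * m) / (2 * ρ) *
        ((((D * m : ℕ) : ℝ) + 1) * (C * Real.exp (-c * m))) := by linarith
    have e5 : Real.exp (c / 2 * m) * Real.exp (-c * m) = Real.exp (-(c / 2) * m) := by
      rw [← Real.exp_add]; congr 1; ring
    have h6 : ρ ^ 2 ≤ (D * m + 1) * (C * Real.exp (-(c / 2) * m)) := by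
      rw [← e5]
      push_cast at h4
      rw [div_mul_eq_mul_div, div_le_div_iff₀ (by positivity) (by positivity)] at h4
      nlinarith
    refine h6.trans ?_
    gcongr
    exact le_abs_self C
  have lim : Tendsto (fun m : ℕ => ((D : ℝ) * m + 1) * (|C| * Real.exp (-(c / 2) * m))) atTop
      (𝓝 0) := by
    have a1 := (Real.tendsto_pow_mul_exp_neg_atTop_nhds_zero 1).comp
      ((tendsto_natCast_atTop_atTop (R := ℝ)).const_mul_atTop (half_pos hc))
    have a2 := (Real.tendsto_pow_mul_exp_neg_atTop_nhds_zero 0).comp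
      ((tendsto_natCast_atTop_atTop (R := ℝ)).const_mul_atTop (half_pos hc))
    have a3 := (a1.const_mul (D * |C| / (c / 2))).add (a2.const_mul |C|)
    simp only [mul_zero, add_zero] at a3
    refine a3.congr fun m => ?_
    simp only [Function.comp, neg_mul]
    field_simp
  have := ge_of_tendsto lim (eventually_atTop.2 ⟨1, key⟩)
  exact absurd this (not_le.2 (by positivity))

end Pool.Agent.H379Z.Fty
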